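import Mathlib
import Pool.Agent.Q48.WC.Phi

set_option autoImplicit false

/-!
Weak convexity of the top syzygy degree of cyclic modules fails: over every field there is a
homogeneous ideal `I` in six variables with `t_6 = 21` and `t_3 ≤ 10`.
-/

universe u

namespace Pool.Agent.Results.MP_78a38c_al.TopSyzygy

open MvPolynomial

variable (K : Type u) [Field K] (n : ℕ)

/-- The differential of the Koszul complex `K(x_1, …, x_n; S)`: a family `(f_J)` stands for
`∑ f_J e_J`, and `∂ f` has the coefficients `∑_{b ∉ J} (-1)^{#{a ∈ J : a < b}} x_b f_{J ∪ b}`. -/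
noncomputable def koszulD :
    (Finset (Fin n) → MvPolynomial (Fin n) K) →ₗ[K] (Finset (Fin n) → MvPolynomial (Fin n) K) :=
  LinearMap.pi fun J => ∑ b ∈ Jᶜ,
    (LinearMap.mulLeft K ((-1) ^ (J.filter (· < b)).card * X b)) ∘ₗ LinearMap.proj (insert b J)

/-- Koszul chains of homological degree `i` and internal degree `j`: the coefficients at the sets
of size `i` are homogeneous of degree `j - i`, all others vanish. -/
noncomputable def chains (i j : ℕ) : Submodule K (Finset (Fin n) → MvPolynomial (Fin n) K) :=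
  Submodule.pi Set.univ fun J =>
    if J.card = i ∧ i ≤ j then homogeneousSubmodule (Fin n) K (j - i) else ⊥

variable {K n}

/-- Families with all entries in `I`. -/
noncomputable def valued (I : Ideal (MvPolynomial (Fin n) K)) :
    Submodule K (Finset (Fin n) → MvPolynomial (Fin n) K) :=
  Submodule.pi Set.univ fun _ => I.restrictScalars K

/-- Koszul chains whose boundary vanishes modulo `I`. -/
noncomputable def cycles (I : Ideal (MvPolynomial (Fin n) K)) (i j : ℕ) :
    Submodule K (Finset (Fin n) → MvPolynomial (Fin n) K) :=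
  chains K n i j ⊓ (valued I).comap (koszulD K n)

/-- Koszul chains which are boundaries modulo `I`. -/
noncomputable def boundaries (I : Ideal (MvPolynomial (Fin n) K)) (i j : ℕ) :
    Submodule K (Finset (Fin n) → MvPolynomial (Fin n) K) :=
  chains K n i j ⊓ (valued I ⊔ (chains K n (i + 1) j).map (koszulD K n))

/-- The graded Betti number `β_{i,j}(S/I) = dim Tor_i(S/I, K)_j`, computed as the dimension of the
degree `j` part of the `i`-th homology of the Koszul complex `K(x_1, …, x_n; S/I)`. -/
noncomputable def betti (I : Ideal (MvPolynomial (Fin n) K)) (i j : ℕ) : ℕ :=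
  Module.finrank K (cycles I i j ⧸ (boundaries I i j).submoduleOf (cycles I i j))

/-- `t_i(S/I)`, the largest `j` with `β_{i,j}(S/I) ≠ 0` (and `⊥` when there is none). -/
noncomputable def t (I : Ideal (MvPolynomial (Fin n) K)) (i : ℕ) : WithBot ℕ∞ :=
  ⨆ j ∈ {j : ℕ | betti I i j ≠ 0}, (j : WithBot ℕ∞)

section Proof

open Q48.WC

theorem koszulD_eq (f : Finset (Fin n) → MvPolynomial (Fin n) K) (J : Finset (Fin n)) :
    koszulD K n f J = kd (fun k => AddMonoidHom.mulLeft (X k)) f J := by
  have h1 : koszulD K n f J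
      = ∑ b ∈ Jᶜ, ((-1) ^ (J.filter (· < b)).card * X b) * f (insert b J) := by
    simp [koszulD, mul_assoc]
  have h2 : ∀ b : Fin n, (if b ∈ J then 0 else (-1 : ℤ) ^ (J.filter (· < b)).card •
      AddMonoidHom.mulLeft (X b) (f (insert b J)) : MvPolynomial (Fin n) K)
      = if b ∈ Jᶜ then ((-1) ^ (J.filter (· < b)).card * X b) * f (insert b J) else 0 := by
    intro b
    by_cases hb : b ∈ J
    · rw [if_pos hb, if_neg (by simpa using hb)]
    · rw [if_neg hb, if_pos (by simpa using hb)]
      rw [zsmul_eq_mul, AddMonoidHom.coe_mulLeft]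
      push_cast
      ring
  rw [h1, kd, Finset.sum_congr rfl fun b _ => h2 b, Finset.sum_ite_mem, Finset.univ_inter]

theorem mem_chains {i j : ℕ} {f : Finset (Fin n) → MvPolynomial (Fin n) K} :
    f ∈ chains K n i j ↔
      ∀ J, f J ∈ (if J.card = i ∧ i ≤ j then homogeneousSubmodule (Fin n) K (j - i) else ⊥) := by
  simp [chains, Submodule.mem_pi]

theorem mem_valued {I : Ideal (MvPolynomial (Fin n) K)}
    {f : Finset (Fin n) → MvPolynomial (Fin n) K} : f ∈ valued I ↔ ∀ J, f J ∈ I := by
  simp [valued, Submodule.mem_pi]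

theorem chains_supp {i j : ℕ} {f : Finset (Fin n) → MvPolynomial (Fin n) K}
    (hf : f ∈ chains K n i j) : Supp f i := by
  intro J hJ
  have := mem_chains.1 hf J
  rw [if_neg (fun h => hJ h.1)] at this
  exact this

theorem chains_hom {i j : ℕ} {f : Finset (Fin n) → MvPolynomial (Fin n) K}
    (hf : f ∈ chains K n i j) (J : Finset (Fin n)) : (f J).IsHomogeneous (j - i) := by
  have := mem_chains.1 hf J
  split_ifs at this
  · exact this
  · rw [Submodule.mem_bot] at this
    rw [this]
    exact isHomogeneous_zero _ _ _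

theorem finite_chains (i j : ℕ) : Module.Finite K (chains K n i j) := by
  rw [Module.Finite.iff_fg]
  apply Submodule.fg_pi
  intro J
  split_ifs
  · exact homogeneousSubmodule_fg _ _ _
  · exact Submodule.fg_bot

theorem betti_eq_zero {I : Ideal (MvPolynomial (Fin n) K)} {i j : ℕ}
    (h : cycles I i j ≤ boundaries I i j) : betti I i j = 0 := by
  have h1 : (boundaries I i j).submoduleOf (cycles I i j) = ⊤ := by
    rw [Submodule.submoduleOf_eq_top]
    exact h
  unfold betti
  rw [h1]
  exact Module.finrank_zero_of_subsingleton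

theorem betti_ne_zero {I : Ideal (MvPolynomial (Fin n) K)} {i j : ℕ}
    (h : ¬ cycles I i j ≤ boundaries I i j) : betti I i j ≠ 0 := by
  have h1 : (boundaries I i j).submoduleOf (cycles I i j) ≠ ⊤ := by
    intro h2
    rw [Submodule.submoduleOf_eq_top] at h2
    exact h h2
  unfold betti
  have := finite_chains (K := K) (n := n) i j
  have : Module.Finite K (cycles I i j) :=
    Submodule.finiteDimensional_of_le (inf_le_left : cycles I i j ≤ chains K n i j)
  have : Nontrivial (cycles I i j ⧸ (boundaries I i j).submoduleOf (cycles I i j)) :=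
    Submodule.Quotient.nontrivial_iff.2 h1
  exact (Module.finrank_pos).ne'

/-- The third Koszul homology vanishes in degrees at least `11`. -/
theorem third (j : ℕ) (hj : 11 ≤ j) : cycles (I0 K) 3 j ≤ boundaries (I0 K) 3 j := by
  intro f hf
  obtain ⟨hfc, hfz⟩ := hf
  have hfz' : ∀ J, koszulD K 6 f J ∈ I0 K := mem_valued.1 hfz
  have hz : ∀ J, kd (op K) (fun J => Phi K (f J)) J = 0 := by
    intro J
    have h1 := kd_map (fun k => AddMonoidHom.mulLeft (X k : MvPolynomial (Fin 6) K)) (op K)
      (Phi K).toAddMonoidHom (fun k m => Phi_X k m) f J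
    rw [← koszulD_eq] at h1
    have h2 : Phi K (koszulD K 6 f J) = 0 := hfz' J
    rw [← h2]
    exact h1.symm
  obtain ⟨g, _, hgs, hg⟩ := ex_op (K := K) (fun J => Phi K (f J)) (fun _ => trivial)
    (fun J hJ => by beta_reduce; rw [chains_supp hfc J hJ, map_zero]) hz
  have hd : ∀ J, ∃ p : MvPolynomial (Fin 6) K, p.IsHomogeneous (j - 4) ∧
      Phi K p = proj K (j - 4) (g J) ∧ (J.card ≠ 4 → p = 0) := by
    intro J
    by_cases hJ : J.card = 4
    · obtain ⟨p, hp, hp2⟩ := lift (j - 4) (by omega) _ (PD_proj (j - 4) (g J))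
      exact ⟨p, hp, hp2, fun h => absurd hJ h⟩
    · exact ⟨0, isHomogeneous_zero _ _ _, by rw [hgs J hJ, map_zero, map_zero], fun _ => rfl⟩
  choose p hp1 hp2 hp3 using hd
  have hpc : p ∈ chains K 6 4 j := by
    rw [mem_chains]
    intro J
    split_ifs with h
    · exact hp1 J
    · rw [Submodule.mem_bot]
      exact hp3 J (fun h4 => h ⟨h4, by omega⟩)
  refine ⟨hfc, ?_⟩
  rw [SetLike.mem_coe, Submodule.mem_sup]
  refine ⟨f - koszulD K 6 p, ?_, koszulD K 6 p, Submodule.mem_map_of_mem hpc, by abel⟩
  rw [mem_valued]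
  intro J
  rw [mem_I0, Pi.sub_apply, map_sub]
  have h1 : Phi K (koszulD K 6 p J) = kd (op K) (fun J => Phi K (p J)) J := by
    rw [koszulD_eq]
    exact kd_map (fun k => AddMonoidHom.mulLeft (X k : MvPolynomial (Fin 6) K)) (op K)
      (Phi K).toAddMonoidHom (fun k m => Phi_X k m) p J
  have h2 : kd (op K) (fun J => Phi K (p J)) J = kd (op K) (fun J => proj K (j - 4) (g J)) J :=
    kd_congr (op K) (fun J => hp2 J) J
  have h3 : proj K (j - 4 + 1) (kd (op K) g J) = kd (op K) (fun J => proj K (j - 4) (g J)) J :=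
    kd_map₂ (op K) (op K) (proj K (j - 4)) (proj K (j - 4 + 1)) (fun k m => op_proj k (j - 4) m) g J
  have h4 : j - 4 + 1 = j - 3 := by omega
  rw [h1, h2, ← h3, hg J, h4]
  rw [Phi_homogeneous (chains_hom hfc J), sub_self]

theorem X_mul_mem {I : Ideal (MvPolynomial (Fin 6) K)} {j : ℕ}
    {f : Finset (Fin 6) → MvPolynomial (Fin 6) K} (hf : f ∈ cycles I 6 j) (b : Fin 6) :
    X b * f Finset.univ ∈ I := by
  have h1 : koszulD K 6 f (Finset.univ.erase b) ∈ I := mem_valued.1 hf.2 _
  have h2 : koszulD K 6 f (Finset.univ.erase b)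
      = ((-1) ^ ((Finset.univ.erase b).filter (· < b)).card * X b) * f Finset.univ := by
    have h3 : ((Finset.univ : Finset (Fin 6)).erase b)ᶜ = {b} := by
      ext a; simp
    have h4 : insert b ((Finset.univ : Finset (Fin 6)).erase b) = Finset.univ :=
      Finset.insert_erase (Finset.mem_univ b)
    simp [koszulD, h3, h4, mul_assoc]
  rw [h2, mul_assoc] at h1
  have h5 := I.mul_mem_left ((-1) ^ ((Finset.univ.erase b).filter (· < b)).card) h1
  rw [← mul_assoc, ← mul_pow, neg_one_mul, neg_neg, one_pow, one_mul] at h5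
  exact h5

theorem card_six {J : Finset (Fin 6)} (h : J.card = 6) : J = Finset.univ := by
  rw [← Finset.card_eq_iff_eq_univ]
  simpa using h

/-- The sixth Koszul homology is concentrated in degree `21`. -/
theorem sixth_zero (j : ℕ) (hj : j ≠ 21) : cycles (I0 K) 6 j ≤ boundaries (I0 K) 6 j := by
  intro f hf
  refine ⟨hf.1, ?_⟩
  apply Submodule.mem_sup_left
  rw [mem_valued]
  intro J
  by_cases hJ : J.card = 6
  · have hJ' := card_six hJ
    subst hJ'
    by_cases h6 : 6 ≤ j
    · rw [mem_I0]
      have hX : ∀ b, op K b (Phi K (f Finset.univ)) = 0 := by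
        intro b
        rw [← Phi_X]
        exact X_mul_mem hf b
      have hproj := Phi_homogeneous (chains_hom hf.1 Finset.univ)
      set v := Phi K (f Finset.univ) with hv
      have hz : ∀ k : Fin 4, up K k v.1 = 0 ∧ dn K k v.2 = 0 := by
        intro k
        have := hX k.succ.succ
        exact ⟨congrArg Prod.fst this, congrArg Prod.snd this⟩
      refine Prod.ext ?_ ?_
      · have := dn_up 0 v.1
        rw [(hz 0).1, map_zero] at this
        exact this.symm
      · ext b
        by_cases hb : b = 0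
        · subst hb
          rw [← hproj, proj_snd, if_neg]
          · rfl
          · have : deg (0 : A) = 0 := by simp [deg]
            rw [this]
            omega
        · obtain ⟨k, hk⟩ : ∃ k, b k ≠ 0 := by
            by_contra h
            push Not at h
            exact hb (funext h)
          have h1 := congrFun (hz k).2 (b - e1 k)
          rw [dn_apply, sub_single_add hk] at h1
          exact h1
    · have := mem_chains.1 hf.1 Finset.univ
      rw [if_neg (fun h => h6 h.2), Submodule.mem_bot] at this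
      rw [this]
      exact (I0 K).zero_mem
  · rw [chains_supp hf.1 J hJ]
    exact (I0 K).zero_mem

/-- The socle element. -/
noncomputable def soc (K : Type u) [Field K] : MvPolynomial (Fin 6) K :=
  monomial (E 1 0 (vec (0, 1, 7, 6))) 1

theorem Phi_soc : Phi K (soc K) = (0, dl K 0) := by
  refine Prod.ext ?_ ?_
  · ext a
    rw [Phi_fst, cf_apply, soc, coeff_monomial, if_neg]
    · rfl
    · intro h
      have := (E_inj h).1
      omega
  · rw [Phi_snd]
    have h1 : cf 1 0 (soc K) = dl K (vec (0, 1, 7, 6)) := by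
      ext a
      rw [cf_apply, soc, coeff_monomial, dl]
      by_cases h : a = vec (0, 1, 7, 6)
      · rw [if_pos (by rw [h]), if_pos h]
      · rw [if_neg (fun h' => h (E_inj h').2.2.symm), if_neg h]
    have h2 : cf 0 1 (soc K) = 0 := by
      ext a
      rw [cf_apply, soc, coeff_monomial, if_neg]
      · rfl
      · intro h
        have := (E_inj h).1
        omega
    have h3 : qcon T1 (0, 1, 7, 6) = [(0, 0, 0, 0)] := by decide
    have h4 : vec (0, 0, 0, 0) = 0 := by
      ext i; fin_cases i <;> rfl
    rw [h1, h2, map_zero, add_zero, act_dl, h3, List.map_cons, List.map_nil, List.sum_cons,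
      List.sum_nil, add_zero, h4]

theorem soc_notMem : soc K ∉ I0 K := by
  rw [mem_I0, Phi_soc]
  intro h
  have h1 : dl K 0 0 = 0 := by
    have := congrArg Prod.snd h
    exact congrFun this 0
  simp [dl] at h1

theorem X_soc (b : Fin 6) : X b * soc K ∈ I0 K := by
  rw [mem_I0, Phi_X, Phi_soc]
  refine Fin.cases ?_ (fun b => ?_) b
  · change ((0 : A → K), act K T1 0) = 0
    rw [map_zero]; rfl
  · refine Fin.cases ?_ (fun b => ?_) b
    · change ((0 : A → K), act K T2 0) = 0
      rw [map_zero]; rfl
    · change (up K b 0, dn K b (dl K 0)) = 0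
      have : dn K b (dl K 0) = 0 := by
        ext a
        rw [dn_apply, dl, if_neg]
        · rfl
        · intro h
          have := congrFun h b
          simp at this
      rw [map_zero, this]; rfl

theorem sixth : ¬ cycles (I0 K) 6 21 ≤ boundaries (I0 K) 6 21 := by
  classical
  intro h
  have h1 : (Pi.single Finset.univ (soc K) : Finset (Fin 6) → MvPolynomial (Fin 6) K)
      ∈ cycles (I0 K) 6 21 := by
    refine ⟨?_, ?_⟩
    · rw [SetLike.mem_coe, mem_chains]
      intro J
      by_cases hJ : J = Finset.univ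
      · subst hJ
        rw [if_pos (by simp), Pi.single_eq_same]
        rw [mem_homogeneousSubmodule]
        apply isHomogeneous_monomial
        rw [degree_E, deg_vec]
        rfl
      · rw [Pi.single_eq_of_ne hJ]
        exact Submodule.zero_mem _
    · rw [SetLike.mem_coe, Submodule.mem_comap, mem_valued]
      intro J
      have h2 : koszulD K 6 (Pi.single Finset.univ (soc K)) J
          = ∑ b ∈ Jᶜ, ((-1) ^ (J.filter (· < b)).card * X b) *
            (Pi.single Finset.univ (soc K) : Finset (Fin 6) → MvPolynomial (Fin 6) K)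
              (insert b J) := by
        simp [koszulD, mul_assoc]
      rw [h2]
      refine (I0 K).sum_mem fun b _ => ?_
      by_cases hb : insert b J = Finset.univ
      · rw [hb, Pi.single_eq_same, mul_assoc]
        exact (I0 K).mul_mem_left _ (X_soc b)
      · rw [Pi.single_eq_of_ne hb, mul_zero]
        exact (I0 K).zero_mem
  have h2 := (h h1).2
  rw [SetLike.mem_coe, Submodule.mem_sup] at h2
  obtain ⟨y, hy, z, ⟨g, hg, rfl⟩, hyz⟩ := h2
  have hg0 : g = 0 := by
    ext1 J
    refine chains_supp hg J ?_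
    have : J.card ≤ 6 := by simpa using Finset.card_le_univ J
    omega
  rw [hg0, map_zero, add_zero] at hyz
  have h3 := mem_valued.1 hy Finset.univ
  rw [hyz, Pi.single_eq_same] at h3
  exact soc_notMem h3

theorem t_three : t (I0 K) 3 ≤ 10 := by
  refine iSup₂_le fun j hj => ?_
  have h1 : j ≤ 10 := by
    by_contra h
    exact hj (betti_eq_zero (third j (by omega)))
  exact_mod_cast h1

theorem t_six : t (I0 K) 6 = 21 := by
  refine le_antisymm (iSup₂_le fun j hj => ?_) ?_
  · have h1 : j = 21 := by
      by_contra h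
      exact hj (betti_eq_zero (sixth_zero j h))
    rw [h1]; rfl
  · have h1 : (21 : ℕ) ∈ {j : ℕ | betti (I0 K) 6 j ≠ 0} := betti_ne_zero sixth
    exact le_iSup₂_of_le (f := fun (j : ℕ) (_ : j ∈ {j : ℕ | betti (I0 K) 6 j ≠ 0}) =>
      ((j : ℕ) : WithBot ℕ∞)) 21 h1 le_rfl

theorem t_lt : t (I0 K) 3 + t (I0 K) (6 - 3) < t (I0 K) 6 := by
  rw [t_six]
  calc t (I0 K) 3 + t (I0 K) (6 - 3) ≤ 10 + 10 := add_le_add t_three t_three
    _ < 21 := by decide

end Proof

/-- Over every field there is a homogeneous ideal `I` in six variables with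
`t_6(S/I) = 21 > 20 ≥ t_3(S/I) + t_3(S/I)`; in particular the inequality
`t_n ≤ t_i + t_{n-i}` fails in general. -/
theorem result :
    (∀ (K : Type u) [Field K], ∃ I : Ideal (MvPolynomial (Fin 6) K),
      (∀ p ∈ I, ∀ d, homogeneousComponent d p ∈ I) ∧
      t I 6 = 21 ∧ t I 3 ≤ 10 ∧ t I 3 + t I (6 - 3) < t I 6) ∧
    ¬ ∀ (K : Type u) [Field K] (n : ℕ), 1 ≤ n → ∀ I : Ideal (MvPolynomial (Fin n) K),
      (∀ p ∈ I, ∀ d, homogeneousComponent d p ∈ I) →
      ∀ i ≤ n, t I n ≤ t I i + t I (n - i) := by
  have h : ∀ (K : Type u) [Field K], ∃ I : Ideal (MvPolynomial (Fin 6) K),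
      (∀ p ∈ I, ∀ d, homogeneousComponent d p ∈ I) ∧
      t I 6 = 21 ∧ t I 3 ≤ 10 ∧ t I 3 + t I (6 - 3) < t I 6 := by
    intro K _
    exact ⟨Q48.WC.I0 K, fun p hp d => Q48.WC.I0_homogeneous p hp d, t_six, t_three, t_lt⟩
  refine ⟨h, fun H => ?_⟩
  obtain ⟨I, hI, _, _, hlt⟩ := h (ULift.{u} ℚ)
  exact absurd (H (ULift.{u} ℚ) 6 (by norm_num) I hI 3 (by norm_num)) (not_le.2 hlt)

end Pool.Agent.Results.MP_78a38c_al.TopSyzygy
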